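import Pool.Agent.helper84.LP.SpecG
import Pool.Agent.helper34.IR.FWD

/-!
# MP_07c750, project LP, row FTR: forward functions, small entropy
-/

open scoped MatrixGroups ContDiff Topology UpperHalfPlane ComplexConjugate
open UpperHalfPlane MeasureTheory Filter Set

set_option autoImplicit false

namespace Pool.Agent.LP

open Pool.Agent.RS
open Pool.Agent.MS (bq BB BA SF pf)
open Pool.Agent.HV (FW)
open Pool.Agent.EN (XG MG mkX mkM fl pr)
open Pool.Agent.ER (Low LowJ)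

noncomputable section

theorem FTR_lM : Continuous lM := by
  refine Continuous.subtype_mk ?_ _
  refine continuous_matrix fun i j => ?_
  fin_cases i <;> fin_cases j <;> simp <;> fun_prop

theorem FTR_num (t C Q : ℝ) (ht : 0 < t) (hC : 0 < C) (hQ : 0 < Q) :
    ∃ m1 : ℕ, ∀ m : ℕ, m1 ≤ m → ∀ x : ℝ, (m : ℝ) ≤ x → C * Real.exp (-(t * x)) ≤ Q := by
  obtain ⟨m1, hm1⟩ := exists_nat_ge (Real.log (C / Q) / t)
  refine ⟨m1, fun m hm x hx => ?_⟩
  have h1 : Real.log (C / Q) / t ≤ x := hm1.trans ((Nat.cast_le.2 hm).trans hx)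
  rw [div_le_iff₀ ht] at h1
  have h2 : C = Q * Real.exp (Real.log (C / Q)) := by
    rw [Real.exp_log (div_pos hC hQ)]
    field_simp
  calc C * Real.exp (-(t * x)) = Q * Real.exp (Real.log (C / Q) - t * x) := by
        conv_lhs => rw [h2]
        rw [mul_assoc, ← Real.exp_add, sub_eq_add_neg]
    _ ≤ Q * 1 := by
        refine mul_le_mul_of_nonneg_left (Real.exp_le_one_iff.2 ?_) hQ.le
        linarith
    _ = Q := mul_one Q

theorem FTR_proof (hBXM : MS.BXM_stmt) (hSFP : IR.SFP_stmt) (hWCO : WCO_stmt) (hLTV : LTV_stmt) (hXFL : EN.XFL_stmt) : FTR_stmt := by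
  intro Γ μ E a η h G hΓ hμ hinv ha hη hG hs hCO δ hδ
  obtain ⟨a0, ha0, -, hB⟩ := hBXM Γ hΓ
  obtain ⟨b, hb, hba, hb'⟩ : ∃ b : ℝ, 0 < b ∧ b ≤ a0 ∧ 16 * b ≤ 1 / 100 := by
    refine ⟨min a0 (1 / 1600), lt_min ha0 (by norm_num), min_le_left _ _, ?_⟩
    have h1 := min_le_right a0 (1 / 1600)
    linarith
  obtain ⟨C, hC, hBX⟩ := hB b hb hba
  refine ⟨C + 1, by linarith, fun C1 Q hC1 hQ => ?_⟩
  obtain ⟨C', hC', hL⟩ := hLTV Γ hΓ C1 a η h G hC1 ha hη hG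
  obtain ⟨n0, hn0⟩ := hWCO Γ μ E h hΓ hμ hinv hCO b η δ hb hη hδ
  obtain ⟨m1, hm1⟩ := FTR_num (1 - (a + h + 2 * η)) C' Q (by linarith) (by linarith) hQ
  refine ⟨max n0 m1, fun m hm => ?_⟩
  have hm0 : n0 ≤ m := le_trans (le_max_left _ _) hm
  have hm2 : m1 ≤ m := le_trans (le_max_right _ _) hm
  have hGm : m ≤ G * m := Nat.le_mul_of_pos_left m (by omega)
  obtain ⟨A, hA, hAm⟩ := hn0 (G * m) (hm0.trans hGm)
  have hAm' := hAm (G * m)
  have ec : ((G * m : ℕ) : ℝ) = (G : ℝ) * (m : ℝ) := by push_cast; rfl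
  have hmx : (m : ℝ) ≤ (G : ℝ) * (m : ℝ) := by
    rw [← ec]
    exact_mod_cast hGm
  rw [ec] at hA hAm'
  have hs0 : (0 : ℝ) ≤ (G : ℝ) * (m : ℝ) := by positivity
  obtain ⟨Ψ, Ψa, Ψn, Ψl, hS, hr, hn', hl, hone, hsup⟩ := hBX ((G : ℝ) * (m : ℝ)) A hs0
  have hS' := (hSFP Γ _ _ _ _ hS).2.2 ((G : ℝ) * (m : ℝ))
  refine ⟨_, _, _, _, hS', fun g => hr _, fun g => ?_, fun g => ?_, ?_, ?_⟩
  · rw [abs_mul, Real.abs_exp]
    have h1 : Real.exp (-((G : ℝ) * (m : ℝ))) ≤ 1 := Real.exp_le_one_iff.2 (by linarith)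
    exact (mul_le_of_le_one_left (abs_nonneg _) h1).trans ((hn' _).trans (by linarith))
  · rw [abs_mul, Real.abs_exp]
    calc Real.exp ((G : ℝ) * (m : ℝ)) * |Ψl (g * aM ((G : ℝ) * (m : ℝ)))| ≤ Real.exp ((G : ℝ) * (m : ℝ)) * (C * Real.exp ((G : ℝ) * (m : ℝ))) :=
          mul_le_mul_of_nonneg_left (hl _) (Real.exp_pos _).le
      _ = C * Real.exp (2 * ((G : ℝ) * (m : ℝ))) := by
          rw [mul_left_comm, ← Real.exp_add]
          congr 2
          ring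
      _ ≤ (C + 1) * Real.exp (2 * ((G : ℝ) * (m : ℝ))) := by
          refine mul_le_mul_of_nonneg_right (by linarith) (Real.exp_pos _).le
  · refine (measureReal_mono ?_ (measure_ne_top _ _)).trans hAm'
    intro x hx
    refine ⟨hx.1, fun hx2 => hx.2 ?_⟩
    obtain ⟨g, rfl⟩ := (hXFL Γ).2.2.2.2.1 x
    exact ⟨g, rfl, IR.FWD_one hXFL hone g hx2⟩
  · intro g J c hJ
    have h3 : Continuous fun v : ℝ => Ψ (g * lM v * aM ((G : ℝ) * (m : ℝ))) :=
      hS.i0.1.comp ((continuous_const.mul FTR_lM).mul continuous_const)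
    have h4 : MeasurableSet (Icc (0 : ℝ) 1 ∩ {v | Ψ (g * lM v * aM ((G : ℝ) * (m : ℝ))) ≠ 0}) :=
      measurableSet_Icc.inter (isOpen_ne_fun h3 continuous_const).measurableSet
    refine (hL (16 * b) m A (by linarith) hb' hA g _ J c h4 inter_subset_left (fun v hv => hsup _ hv.2) hJ).trans
      (mul_le_mul_of_nonneg_right ?_ (Finset.sum_nonneg fun j _ => by positivity))
    have h5 := hm1 m hm2 _ hmx
    have h6 : -((1 - (a + h + 2 * η)) * ((G : ℝ) * (m : ℝ))) = (a + h + 2 * η - 1) * ((G : ℝ) * (m : ℝ)) := by ring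
    rw [h6] at h5
    exact h5

end

end Pool.Agent.LP
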